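import Mathlib

/-!
# Commuting real matrix tuples never act minimally in dimension at least three

For `n ≥ 3` and pairwise commuting real `n × n` matrices `A 0, …, A (m-1)` there is a nonzero vector
whose orbit under the generated semigroup is not dense. The matrices have a common eigenvector
`a + i b` over the complex numbers, so the span of `a` and `b` is a common invariant subspace of
dimension one or two.
-/

set_option autoImplicit false

namespace Pool.Agent.Results.MP_336050_an.NoMinimalTuple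

open Matrix

/-- The orbit of `x` under the tuple `A`: all vectors `A₁^{k₁} A₂^{k₂} ⋯ A_m^{k_m} x`. -/
def orbit {n m : ℕ} (A : Fin m → Matrix (Fin n) (Fin n) ℝ) (x : Fin n → ℝ) : Set (Fin n → ℝ) :=
  {y | ∃ k : Fin m → ℕ, y = ((List.ofFn fun i => A i ^ k i).prod) *ᵥ x}

lemma common_aux {V ι : Type*} [AddCommGroup V] [Module ℂ V] [FiniteDimensional ℂ V] [Nontrivial V]
    (T : ι → Module.End ℂ V) (hc : ∀ i j, Commute (T i) (T j)) (s : Finset ι) :
    ∃ W : Submodule ℂ V, W ≠ ⊥ ∧ (∀ j, ∀ w ∈ W, T j w ∈ W) ∧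
      ∀ i ∈ s, ∃ μ : ℂ, ∀ w ∈ W, T i w = μ • w := by
  classical
  induction s using Finset.induction_on with
  | empty => exact ⟨⊤, top_ne_bot, fun _ _ _ => Submodule.mem_top, by simp⟩
  | insert i₀ s _ ih =>
    obtain ⟨W, hW, hinv, hs⟩ := ih
    have : Nontrivial W := Submodule.nontrivial_iff_ne_bot.2 hW
    let R : Module.End ℂ W := (T i₀).restrict (hinv i₀)
    obtain ⟨μ, hμ⟩ := Module.End.exists_eigenvalue R
    obtain ⟨v, hv⟩ := hμ.exists_hasEigenvector
    refine ⟨W ⊓ Module.End.eigenspace (T i₀) μ, ?_, ?_, ?_⟩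
    · intro hbot
      have hv1 : (v : V) ∈ W ⊓ Module.End.eigenspace (T i₀) μ := by
        refine ⟨v.2, Module.End.mem_eigenspace_iff.2 ?_⟩
        have := hv.apply_eq_smul
        have h2 := congrArg (Subtype.val) this
        simpa [R] using h2
      rw [hbot, Submodule.mem_bot] at hv1
      exact hv.2 (Subtype.ext hv1)
    · intro j w hw
      refine ⟨hinv j w hw.1, Module.End.mem_eigenspace_iff.2 ?_⟩
      have h1 := Module.End.mem_eigenspace_iff.1 hw.2
      have h2 : T i₀ (T j w) = T j (T i₀ w) := by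
        have := (hc i₀ j).eq
        exact congrArg (fun f : Module.End ℂ V => f w) this
      rw [h2, h1, map_smul]
    · intro i hi
      rw [Finset.mem_insert] at hi
      rcases hi with rfl | hi
      · exact ⟨μ, fun w hw => Module.End.mem_eigenspace_iff.1 hw.2⟩
      · obtain ⟨ν, hν⟩ := hs i hi
        exact ⟨ν, fun w hw => hν w hw.1⟩

/-- For every `n ≥ 3` and every `m` (in particular `m = n`) there is no `m`-tuple of pairwise commuting
real `n × n` matrices for which every nonzero vector of `ℝ^n` has a dense orbit. -/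
theorem result : ∀ n m : ℕ, 3 ≤ n →
    ¬ ∃ A : Fin m → Matrix (Fin n) (Fin n) ℝ, (∀ i j, A i * A j = A j * A i) ∧
      ∀ x : Fin n → ℝ, x ≠ 0 → Dense (orbit A x) := by
  rintro n m hn ⟨A, hc, hd⟩
  have : Nonempty (Fin n) := ⟨⟨0, by omega⟩⟩
  let T : Fin m → Module.End ℂ (Fin n → ℂ) := fun i => Matrix.toLin' ((A i).map (algebraMap ℝ ℂ))
  have hcT : ∀ i j, Commute (T i) (T j) := by
    intro i j
    have h : (A i).map (algebraMap ℝ ℂ) * (A j).map (algebraMap ℝ ℂ) =
        (A j).map (algebraMap ℝ ℂ) * (A i).map (algebraMap ℝ ℂ) := by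
      rw [← Matrix.map_mul, ← Matrix.map_mul, hc i j]
    change (T i).comp (T j) = (T j).comp (T i)
    simp only [T]
    rw [← Matrix.toLin'_mul, ← Matrix.toLin'_mul, h]
  obtain ⟨W, hW, -, hs⟩ := common_aux T hcT Finset.univ
  obtain ⟨v, hvW, hv0⟩ := Submodule.exists_mem_ne_zero_of_ne_bot hW
  choose μ hμ using fun i => hs i (Finset.mem_univ i)
  have hv : ∀ i, ((A i).map (algebraMap ℝ ℂ)) *ᵥ v = μ i • v := by
    intro i
    have := hμ i v hvW
    simpa [T, Matrix.toLin'_apply] using this
  let a : Fin n → ℝ := fun j => (v j).re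
  let b : Fin n → ℝ := fun j => (v j).im
  have ha : ∀ i, A i *ᵥ a = (μ i).re • a - (μ i).im • b := by
    intro i
    ext j
    have h := congrArg Complex.re (congrFun (hv i) j)
    simp only [Matrix.mulVec, dotProduct, Matrix.map_apply, Complex.re_sum, Pi.smul_apply,
      smul_eq_mul, Complex.mul_re, Complex.coe_algebraMap, Complex.ofReal_re, Complex.ofReal_im,
      zero_mul, sub_zero] at h
    simp only [Matrix.mulVec, dotProduct, Pi.sub_apply, Pi.smul_apply, smul_eq_mul, a, b]
    exact h
  have hb : ∀ i, A i *ᵥ b = (μ i).re • b + (μ i).im • a := by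
    intro i
    ext j
    have h := congrArg Complex.im (congrFun (hv i) j)
    simp only [Matrix.mulVec, dotProduct, Matrix.map_apply, Complex.im_sum, Pi.smul_apply,
      smul_eq_mul, Complex.mul_im, Complex.coe_algebraMap, Complex.ofReal_re, Complex.ofReal_im,
      zero_mul, add_zero] at h
    simp only [Matrix.mulVec, dotProduct, Pi.add_apply, Pi.smul_apply, smul_eq_mul, a, b]
    exact h
  let P : Submodule ℝ (Fin n → ℝ) := Submodule.span ℝ {a, b}
  have haP : a ∈ P := Submodule.subset_span (by simp)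
  have hbP : b ∈ P := Submodule.subset_span (by simp)
  have hinv : ∀ i, ∀ w ∈ P, A i *ᵥ w ∈ P := by
    intro i w hw
    obtain ⟨s, t, rfl⟩ := Submodule.mem_span_pair.1 hw
    rw [Matrix.mulVec_add, Matrix.mulVec_smul, Matrix.mulVec_smul, ha, hb]
    exact P.add_mem (P.smul_mem _ (P.sub_mem (P.smul_mem _ haP) (P.smul_mem _ hbP)))
      (P.smul_mem _ (P.add_mem (P.smul_mem _ hbP) (P.smul_mem _ haP)))
  have hpow : ∀ i (k : ℕ), ∀ w ∈ P, (A i ^ k) *ᵥ w ∈ P := by
    intro i k
    induction k with
    | zero => intro w hw; simpa using hw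
    | succ k ih =>
      intro w hw
      rw [pow_succ, ← Matrix.mulVec_mulVec]
      exact ih _ (hinv i w hw)
  have hlist : ∀ (l : List (Matrix (Fin n) (Fin n) ℝ)), (∀ B ∈ l, ∀ w ∈ P, B *ᵥ w ∈ P) →
      ∀ w ∈ P, l.prod *ᵥ w ∈ P := by
    intro l
    induction l with
    | nil => intro _ w hw; simpa using hw
    | cons B l ih =>
      intro hl w hw
      rw [List.prod_cons, ← Matrix.mulVec_mulVec]
      exact hl B (by simp) _ (ih (fun C hC => hl C (by simp [hC])) w hw)
  have horb : ∀ x ∈ P, orbit A x ⊆ (P : Set (Fin n → ℝ)) := by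
    rintro x hx y ⟨k, rfl⟩
    refine hlist _ ?_ x hx
    intro B hB
    rw [List.mem_ofFn] at hB
    obtain ⟨i, rfl⟩ := hB
    exact hpow i (k i)
  have hx : ∃ x ∈ P, x ≠ 0 := by
    by_contra hcon
    push Not at hcon
    have h1 := hcon a haP
    have h2 := hcon b hbP
    apply hv0
    ext j
    apply Complex.ext
    · simpa [a] using congrFun h1 j
    · simpa [b] using congrFun h2 j
  obtain ⟨x, hxP, hx0⟩ := hx
  have hdense := hd x hx0
  have hclosed : IsClosed (P : Set (Fin n → ℝ)) := P.closed_of_finiteDimensional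
  have huniv : (P : Set (Fin n → ℝ)) = Set.univ := by
    have := hdense.mono (horb x hxP)
    rw [← hclosed.closure_eq]
    exact this.closure_eq
  have htop : P = ⊤ := by
    rw [← Submodule.coe_eq_univ]
    exact huniv
  have hfr : Module.finrank ℝ P ≤ 2 := by
    have h1 := finrank_span_finset_le_card (R := ℝ) ({a, b} : Finset (Fin n → ℝ))
    have h2 : (({a, b} : Finset (Fin n → ℝ)) : Set (Fin n → ℝ)) = {a, b} := by simp
    rw [Set.finrank, h2] at h1
    exact h1.trans (Finset.card_le_two)
  rw [htop, finrank_top, Module.finrank_fin_fun] at hfr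
  omega

end Pool.Agent.Results.MP_336050_an.NoMinimalTuple
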